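import Mathlib
import Pool.Agent.Helper56.Koszul.Statement
import Pool.Agent.Helper56.Koszul.Seed3
import Pool.Agent.Helper42.KZ.KZ3
import Pool.Agent.Helper73.KZ.KZ5
import Pool.Agent.Helper80.KZ.GrData

/-!
The base ring of the Fano matroid is Koszul over every field.

Proof outline.  Let `S` be the base ring, `Lam` the monoid generated by the 28 bases.  The proof
is a Koszul filtration argument by ideals generated by variables, in which one type of
three-generated ideal, the seed `(x_{pqa}, x_{pqb}, x_{pqc})`, is treated separately: its
syzygy module is generated by 17 linear syzygies and has a filtration whose first step is the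
direct sum of two modules of the same kind as the seed and whose other 11 factors are cyclic
modules `S / (variables)`.  All colon ideals are computed exactly: the sets of elements of `Lam`
with prescribed lower bounds on the facet functionals of the base polytope are generated in
degree at most 2, which is certified by a tree of 108 steps.  Up to the symmetry of the Fano
plane the filtration consists of 57 sets of variables.
-/

namespace Pool.Agent.Results.MP_c7d84d_co.FanoBaseRingKoszul

open Pool.Agent.Helper56.Koszul

universe u

/-- sanity check: there are 28 bases -/
theorem card_bases : fanoBases.card = 28 := by decide +kernel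

/-- sanity check: two distinct points lie on exactly one line -/
theorem unique_line : ∀ p q : Fin 7, p ≠ q → (fanoLines.filter fun L => p ∈ L ∧ q ∈ L).card = 1 := by
  decide +kernel

/-- **Main theorem.** For every field `k` the base ring of the Fano matroid is Koszul. -/
theorem result (k : Type u) [Field k] : IsKoszul (RingHom.ker (toricMap k)) := by
  obtain ⟨D, hD⟩ := Pool.Agent.Helper80.KZ.exists_grData k
  obtain ⟨β, d, h0, h1, h2, h3⟩ := Pool.Agent.Helper42.KZ.exists_resolution D
    (IV k 268435455) (by rw [hD]; exact lin_IV_full k D hD)
  rw [hD] at h1
  have hm : IV k 268435455 = Pool.Agent.Helper73.KZ.mMod k := by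
    have hb : ∀ b : Fin 28, (268435455 : ℕ).testBit b.val = true := by decide +kernel
    unfold IV Pool.Agent.Helper73.KZ.mMod
    congr 1
    ext y
    constructor
    · rintro ⟨b, -, rfl⟩
      exact ⟨b, rfl⟩
    · rintro ⟨b, rfl⟩
      exact ⟨b, hb b, rfl⟩
  rw [hm] at h2
  exact Pool.Agent.Helper73.KZ.isKoszul_of_SR k β d h0 h1 h2 h3

end Pool.Agent.Results.MP_c7d84d_co.FanoBaseRingKoszul
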